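import Pool.Agent.Run7.h822.WN.Poly

/-!
The arcs of uniform self-avoiding polygons are concatenations of few bridges.
-/

set_option autoImplicit false
set_option linter.unusedSectionVars false
set_option linter.unusedVariables false

namespace Run7.h529.PB

open Finset Run7.h529.FB
open Run7.h738.PG (Loop Loop_finite)
open Run7.h822.WN (ofLoop ofLoop_inj loops_many)

/-! ### sequences -/

/-- The piece of the sequence `g` between the times `u ≤ v` is a bridge. -/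
def Brd (g : ℕ → ℤ) (u v : ℕ) : Prop :=
  u ≤ v ∧ ((∀ i, u ≤ i → i ≤ v → g u ≤ g i ∧ g i ≤ g v) ∨
    (∀ i, u ≤ i → i ≤ v → g v ≤ g i ∧ g i ≤ g u))

/-- The piece of `g` between the times `u` and `v` is a concatenation of `m` bridges. -/
def Cuts (g : ℕ → ℤ) (m : ℕ) (u v : ℕ) : Prop :=
  ∃ τ : ℕ → ℕ, τ 0 = u ∧ τ m = v ∧ ∀ i < m, Brd g (τ i) (τ (i + 1))

lemma Brd.self (g : ℕ → ℤ) (u : ℕ) : Brd g u u := by
  refine ⟨le_rfl, Or.inl fun i h1 h2 => ?_⟩
  have : i = u := le_antisymm h2 h1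
  subst this
  exact ⟨le_rfl, le_rfl⟩

lemma Cuts.cons {g : ℕ → ℤ} {m u u' v : ℕ} (h : Brd g u u') (h' : Cuts g m u' v) :
    Cuts g (m + 1) u v := by
  obtain ⟨τ, h1, h2, h3⟩ := h'
  refine ⟨fun i => if i = 0 then u else τ (i - 1), by simp, by simp [h2], ?_⟩
  intro i hi
  rcases Nat.eq_zero_or_pos i with rfl | h0
  · simp [h1, h]
  · have := h3 (i - 1) (by omega)
    rw [show i - 1 + 1 = i by omega] at this
    simp only [Nat.add_sub_cancel]
    rw [if_neg (by omega), if_neg (by omega)]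
    exact this

lemma Cuts.mono {g : ℕ → ℤ} {m m' u v : ℕ} (h : Cuts g m u v) (hm : m ≤ m') :
    Cuts g m' u v := by
  induction m', hm using Nat.le_induction with
  | base => exact h
  | succ m' _ ih => exact Cuts.cons (Brd.self g u) ih

lemma Cuts.le {g : ℕ → ℤ} {m u v : ℕ} {τ : ℕ → ℕ} (h1 : τ 0 = u) (h2 : τ m = v)
    (h3 : ∀ i < m, Brd g (τ i) (τ (i + 1))) : ∀ i j, i ≤ j → j ≤ m → τ i ≤ τ j := by
  intro i j hij
  induction j, hij using Nat.le_induction with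
  | base => intro _; exact le_rfl
  | succ j hj ih => intro hjm; exact (ih (by omega)).trans (h3 j (by omega)).1

/-- a concatenation of few bridges contains a long bridge -/
lemma Cuts.long {g : ℕ → ℤ} {m u v : ℕ} {y : ℝ} (h : Cuts g m u v) (hm : (m : ℝ) ≤ y) :
    ∃ a b : ℕ, u ≤ a ∧ a ≤ b ∧ b ≤ v ∧ Brd g a b ∧ (v : ℝ) - u ≤ y * ((b : ℝ) - a) := by
  obtain ⟨τ, h1, h2, h3⟩ := h
  have hmono := Cuts.le h1 h2 h3
  by_contra hcon
  push Not at hcon
  have h4 : ∀ i < m, y * ((τ (i + 1) : ℝ) - τ i) < (v : ℝ) - u := by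
    intro i hi
    refine hcon (τ i) (τ (i + 1)) ?_ (h3 i hi).1 ?_ (h3 i hi)
    · rw [← h1]; exact hmono 0 i (by omega) (by omega)
    · rw [← h2]; exact hmono (i + 1) m (by omega) le_rfl
  rcases Nat.eq_zero_or_pos m with hm0 | hm0
  · subst hm0
    have huv : u = v := by rw [← h1, ← h2]
    subst huv
    have := hcon u u le_rfl le_rfl le_rfl (Brd.self g u)
    simp at this
  · have h5 : ∑ i ∈ range m, y * ((τ (i + 1) : ℝ) - τ i) < ∑ i ∈ range m, ((v : ℝ) - u) := by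
      apply Finset.sum_lt_sum_of_nonempty
      · exact ⟨0, Finset.mem_range.mpr hm0⟩
      · intro i hi
        exact h4 i (Finset.mem_range.mp hi)
    rw [← Finset.mul_sum, Finset.sum_range_sub (fun i => (τ i : ℝ)), h1, h2,
      Finset.sum_const, Finset.card_range, nsmul_eq_mul] at h5
    have huv : (u : ℝ) ≤ v := by
      have : u ≤ v := by rw [← h1, ← h2]; exact hmono 0 m (by omega) le_rfl
      exact_mod_cast this
    nlinarith

/-- a concatenation of few bridges contains a high bridge -/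
lemma Cuts.high {g : ℕ → ℤ} {m u v : ℕ} {y : ℝ} (h : Cuts g m u v) (hm : (m : ℝ) ≤ y) :
    ∃ a b : ℕ, u ≤ a ∧ a ≤ b ∧ b ≤ v ∧ Brd g a b ∧
      |(g v : ℝ) - g u| ≤ y * |(g b : ℝ) - g a| := by
  obtain ⟨τ, h1, h2, h3⟩ := h
  have hmono := Cuts.le h1 h2 h3
  by_contra hcon
  push Not at hcon
  have h4 : ∀ i < m, y * |(g (τ (i + 1)) : ℝ) - g (τ i)| < |(g v : ℝ) - g u| := by
    intro i hi
    refine hcon (τ i) (τ (i + 1)) ?_ (h3 i hi).1 ?_ (h3 i hi)
    · rw [← h1]; exact hmono 0 i (by omega) (by omega)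
    · rw [← h2]; exact hmono (i + 1) m (by omega) le_rfl
  rcases Nat.eq_zero_or_pos m with hm0 | hm0
  · subst hm0
    have huv : u = v := by rw [← h1, ← h2]
    subst huv
    have := hcon u u le_rfl le_rfl le_rfl (Brd.self g u)
    simp at this
  · have h5 : ∑ i ∈ range m, y * |(g (τ (i + 1)) : ℝ) - g (τ i)| <
        ∑ i ∈ range m, |(g v : ℝ) - g u| := by
      apply Finset.sum_lt_sum_of_nonempty
      · exact ⟨0, Finset.mem_range.mpr hm0⟩
      · intro i hi
        exact h4 i (Finset.mem_range.mp hi)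
    have h6 : |(g v : ℝ) - g u| ≤ ∑ i ∈ range m, |(g (τ (i + 1)) : ℝ) - g (τ i)| := by
      have := Finset.abs_sum_le_sum_abs (fun i => (g (τ (i + 1)) : ℝ) - g (τ i)) (range m)
      rw [Finset.sum_range_sub (fun i => (g (τ i) : ℝ)), h1, h2] at this
      exact this
    rw [← Finset.mul_sum, Finset.sum_const, Finset.card_range, nsmul_eq_mul] at h5
    have h0 : 0 ≤ |(g v : ℝ) - g u| := abs_nonneg _
    have hm1 : (1 : ℝ) ≤ m := by exact_mod_cast hm0
    have hy : 0 ≤ y := by linarith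
    nlinarith

/-! ### arcs -/

variable {M : ℕ}

/-- the coordinate `h` along the polygon, from the time `s` -/
def along (f : ZMod M → ℤ × ℤ) (h : ℤ × ℤ → ℤ) (s : ZMod M) (i : ℕ) : ℤ :=
  h (f (s + (i : ZMod M)))

/-- the least `m` such that every arc with less than `M` steps is a concatenation of `m` bridges -/
noncomputable def VA (f : ZMod M → ℤ × ℤ) (h : ℤ × ℤ → ℤ) : ℕ :=
  sInf {m | ∀ (s : ZMod M) (a : ℕ), a < M → Cuts (along f h s) m 0 a}

/-- the loop with the root moved to the time `r` -/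
def rot (r : ZMod M) (f : ZMod M → ℤ × ℤ) (i : ZMod M) : ℤ × ℤ := f (r + i) - f r

lemma rot_loop {r : ZMod M} {f : ZMod M → ℤ × ℤ} (hf : Loop M f) : Loop M (rot r f) := by
  obtain ⟨h0, h1, h2⟩ := hf
  refine ⟨by simp [rot], ?_, fun i => ?_⟩
  · intro i j h
    have : f (r + i) = f (r + j) := by
      have h' : f (r + i) - f r = f (r + j) - f r := h
      exact sub_left_injective h'
    exact add_left_cancel (h1 this)
  · have := h2 (r + i)
    have e : r + (i + 1) = r + i + 1 := by ring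
    simp only [rot, Prod.fst_sub, Prod.snd_sub, e]
    rw [sub_sub_sub_cancel_right, sub_sub_sub_cancel_right]
    exact this

lemma rot_inj {r : ZMod M} {f f' : ZMod M → ℤ × ℤ} (hf : f 0 = 0) (hf' : f' 0 = 0)
    (h : rot r f = rot r f') : f = f' := by
  have h1 : ∀ i, f (r + i) - f r = f' (r + i) - f' r := fun i => congrFun h i
  have h2 := h1 (-r)
  rw [add_neg_cancel, hf, hf', zero_sub, zero_sub, neg_inj] at h2
  funext i
  have h3 := h1 (i - r)
  rw [add_sub_cancel, h2] at h3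
  exact sub_left_injective h3

variable {N : ℕ}

/-- pieces of the walk obtained from the rotated loop -/
lemma cuts_of {f : ZMod (N + 1) → ℤ × ℤ} (hf : Loop (N + 1) f) {h : ℤ × ℤ → ℤ}
    (hh : h ∈ Coords .square) (s : ZMod (N + 1)) {a : ℕ} (ha : a < N + 1) :
    Cuts (along f h s)
      (V (fun i => h ((ofLoop (rot s f) (rot_loop hf)).1 i))) 0 a := by
  have h1 := V_spec' (ofLoop (rot s f) (rot_loop hf)) hh (s := 0) (t := ⟨a, ha⟩) (Fin.zero_le _)
  obtain ⟨τ, t1, t2, t3⟩ := h1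
  have hadd : ∀ p q : ℤ × ℤ, h (p - q) = h p - h q := by
    have hh' : h = (fun p => p.1) ∨ h = (fun p => p.2) := hh
    rcases hh' with rfl | rfl <;> intro p q <;> rfl
  have hx : ∀ i : Fin (N + 1), h ((ofLoop (rot s f) (rot_loop hf)).1 i) =
      along f h s i - h (f s) := by
    intro i
    change h (f (s + ((i : ℕ) : ZMod (N + 1))) - f s) = _
    rw [hadd]
    rfl
  refine ⟨fun k => (τ k : ℕ), by simp [t1], by simp [t2], fun k hk => ?_⟩
  obtain ⟨b1, b2⟩ := t3 k hk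
  refine ⟨b1, ?_⟩
  rcases b2 with b2 | b2
  · left
    intro i i1 i2
    have hi : i < N + 1 := lt_of_le_of_lt i2 (τ (k + 1)).2
    have := b2 ⟨i, hi⟩ i1 i2
    simp only [hx] at this
    constructor <;> linarith [this.1, this.2]
  · right
    intro i i1 i2
    have hi : i < N + 1 := lt_of_le_of_lt i2 (τ (k + 1)).2
    have := b2 ⟨i, hi⟩ i1 i2
    simp only [hx] at this
    constructor <;> linarith [this.1, this.2]

lemma VA_le {f : ZMod (N + 1) → ℤ × ℤ} (hf : Loop (N + 1) f) {h : ℤ × ℤ → ℤ}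
    (hh : h ∈ Coords .square) : ∃ s : ZMod (N + 1),
    (∀ (r : ZMod (N + 1)) (a : ℕ), a < N + 1 → Cuts (along f h r) (VA f h) 0 a) ∧
    VA f h ≤ V (fun i => h ((ofLoop (rot s f) (rot_loop hf)).1 i)) := by
  obtain ⟨s, -, hs⟩ := exists_max_image (univ : Finset (ZMod (N + 1)))
    (fun s => V (fun i => h ((ofLoop (rot s f) (rot_loop hf)).1 i))) ⟨0, mem_univ _⟩
  have hmem : V (fun i => h ((ofLoop (rot s f) (rot_loop hf)).1 i)) ∈
      {m | ∀ (s : ZMod (N + 1)) (a : ℕ), a < N + 1 → Cuts (along f h s) m 0 a} := by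
    intro r a ha
    exact (cuts_of hf hh r ha).mono (hs r (mem_univ _))
  refine ⟨s, ?_, Nat.sInf_le hmem⟩
  exact Nat.sInf_mem (s := {m | ∀ (s : ZMod (N + 1)) (a : ℕ), a < N + 1 →
    Cuts (along f h s) m 0 a}) ⟨_, hmem⟩

open Classical in
/-- the sum over all loops -/
lemma sum_loops [Fintype {f : ZMod (N + 1) → ℤ × ℤ // Loop (N + 1) f}] {h : ℤ × ℤ → ℤ}
    (hh : h ∈ Coords .square) {lam : ℝ} (hl : 1 ≤ lam) :
    ∑ f : {f : ZMod (N + 1) → ℤ × ℤ // Loop (N + 1) f}, lam ^ VA f.1 h ≤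
      ((N : ℝ) + 1) * ∑ ω : Walk .square N, lam ^ V (fun i => h (ω.1 i)) := by
  have h1 : ∀ f : {f : ZMod (N + 1) → ℤ × ℤ // Loop (N + 1) f}, lam ^ VA f.1 h ≤
      ∑ s : ZMod (N + 1), lam ^ V (fun i => h ((ofLoop (rot s f.1) (rot_loop f.2)).1 i)) := by
    intro f
    obtain ⟨s, -, hs⟩ := VA_le f.2 hh
    calc lam ^ VA f.1 h ≤ lam ^ V (fun i => h ((ofLoop (rot s f.1) (rot_loop f.2)).1 i)) :=
          pow_le_pow_right₀ hl hs
      _ ≤ _ := Finset.single_le_sum
          (f := fun s => lam ^ V (fun i => h ((ofLoop (rot s f.1) (rot_loop f.2)).1 i)))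
          (fun _ _ => by positivity) (mem_univ s)
  calc _ ≤ ∑ f : {f : ZMod (N + 1) → ℤ × ℤ // Loop (N + 1) f}, ∑ s : ZMod (N + 1),
        lam ^ V (fun i => h ((ofLoop (rot s f.1) (rot_loop f.2)).1 i)) := sum_le_sum fun f _ => h1 f
    _ = ∑ s : ZMod (N + 1), ∑ f : {f : ZMod (N + 1) → ℤ × ℤ // Loop (N + 1) f},
        lam ^ V (fun i => h ((ofLoop (rot s f.1) (rot_loop f.2)).1 i)) := sum_comm
    _ ≤ ∑ _s : ZMod (N + 1), ∑ ω : Walk .square N, lam ^ V (fun i => h (ω.1 i)) := by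
        apply sum_le_sum
        intro s _
        have hinj : Function.Injective (fun f : {f : ZMod (N + 1) → ℤ × ℤ // Loop (N + 1) f} =>
            ofLoop (rot s f.1) (rot_loop f.2)) := by
          intro f f' he
          apply Subtype.ext
          exact rot_inj f.2.1 f'.2.1 (ofLoop_inj (rot_loop f.2) (rot_loop f'.2) he)
        have e := sum_map univ ⟨_, hinj⟩ (fun ω : Walk .square N => lam ^ V (fun i => h (ω.1 i)))
        refine (le_of_eq e.symm).trans ?_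
        exact sum_le_sum_of_subset_of_nonneg (subset_univ _) (fun _ _ _ => by positivity)
    _ = _ := by
        rw [sum_const, card_univ, ZMod.card, nsmul_eq_mul]
        push_cast
        rfl

open Classical in
lemma count_loops {h : ℤ × ℤ → ℤ} (hh : h ∈ Coords .square) {lam : ℝ} (hl : 1 ≤ lam) (m : ℕ) :
    lam ^ m * (({f | Loop (N + 1) f ∧ m ≤ VA f h} : Set (ZMod (N + 1) → ℤ × ℤ)).ncard : ℝ) ≤
      ((N : ℝ) + 1) * ∑ ω : Walk .square N, lam ^ V (fun i => h (ω.1 i)) := by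
  have hfin := Loop_finite (N + 1) (Nat.succ_pos N)
  haveI : Fintype {f : ZMod (N + 1) → ℤ × ℤ // Loop (N + 1) f} := hfin.fintype
  refine le_trans ?_ (sum_loops hh hl)
  have e1 : ({f | Loop (N + 1) f ∧ m ≤ VA f h} : Set (ZMod (N + 1) → ℤ × ℤ)).ncard =
      (univ.filter (fun f : {f : ZMod (N + 1) → ℤ × ℤ // Loop (N + 1) f} =>
        m ≤ VA f.1 h)).card := by
    rw [← Set.ncard_coe_finset, ← Set.ncard_image_of_injective _ Subtype.val_injective]
    congr 1
    ext f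
    simp only [Set.mem_ofPred_eq, Set.mem_image, mem_coe, mem_filter, mem_univ, true_and,
      Subtype.exists, exists_and_left, exists_prop, exists_eq_right_right]
    tauto
  rw [e1, mul_comm, ← nsmul_eq_mul, ← sum_const]
  calc ∑ _f ∈ univ.filter (fun f : {f : ZMod (N + 1) → ℤ × ℤ // Loop (N + 1) f} =>
        m ≤ VA f.1 h), lam ^ m
      ≤ ∑ f ∈ univ.filter (fun f : {f : ZMod (N + 1) → ℤ × ℤ // Loop (N + 1) f} =>
        m ≤ VA f.1 h), lam ^ VA f.1 h :=
        sum_le_sum fun f hf => pow_le_pow_right₀ hl (mem_filter.mp hf).2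
    _ ≤ _ := sum_le_sum_of_subset_of_nonneg (filter_subset _ _) (fun _ _ _ => by positivity)

/-- **Tail bounds of all orders.** -/
theorem moments : ∃ K : ℝ, 0 < K ∧ ∀ n : ℕ, 2 ≤ n → ∀ h ∈ Coords .square, ∀ lam : ℝ, 1 ≤ lam →
    ∀ m : ℕ, lam ^ m *
      (({f | Loop (2 * n) f ∧ m ≤ VA f h} : Set (ZMod (2 * n) → ℤ × ℤ)).ncard : ℝ) ≤
      Real.exp (K * lam ^ 2 * Real.log n ^ 2) *
        (({f | Loop (2 * n) f} : Set (ZMod (2 * n) → ℤ × ℤ)).ncard : ℝ) := by
  obtain ⟨K, hK, H⟩ := mean_V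
  obtain ⟨K1, hK1, H1⟩ := loops_many
  have hl2 : 0 < Real.log 2 := Real.log_pos (by norm_num)
  refine ⟨4 * K + K1 + 2 / Real.log 2, by positivity, fun n hn h hh lam hl m => ?_⟩
  obtain ⟨N, hN⟩ : ∃ N, 2 * n = N + 1 := ⟨2 * n - 1, by omega⟩
  have hN1 : 2 * n - 1 = N := by omega
  have h1 := H1 n hn
  rw [hN1] at h1
  have hn' : (2 : ℝ) ≤ n := by exact_mod_cast hn
  have hNr : (N : ℝ) + 1 = 2 * n := by
    have : ((N + 1 : ℕ) : ℝ) = ((2 * n : ℕ) : ℝ) := by rw [hN]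
    push_cast at this
    linarith
  rw [hN] at h1 ⊢
  set c : ℝ := (({f | Loop (N + 1) f} : Set (ZMod (N + 1) → ℤ × ℤ)).ncard : ℝ) with hc
  set L : ℝ := Real.log n with hL
  have hL2 : Real.log 2 ≤ L := Real.log_le_log (by norm_num) hn'
  have hL0 : 0 < L := by linarith
  have hmean := H .square N (by omega) h hh lam hl
  unfold mean at hmean
  have hW := card_pos .square N
  rw [div_le_iff₀ hW] at hmean
  have h2 := count_loops (N := N) hh hl m
  have hlog : Real.log N ≤ 2 * L := by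
    have e1 : (N : ℝ) ≤ (n : ℝ) * n := by nlinarith
    have e2 : (0 : ℝ) < N := by linarith
    calc Real.log N ≤ Real.log ((n : ℝ) * n) := Real.log_le_log e2 e1
      _ = _ := by rw [Real.log_mul (by positivity) (by positivity)]; ring
  have hlog0 : 0 ≤ Real.log N := Real.log_nonneg (by linarith)
  have hlogsq : Real.log N ^ 2 ≤ 4 * L ^ 2 := by nlinarith
  have hcard : (Fintype.card (Walk .square N) : ℝ) ≤ Real.exp (K1 * L ^ 2) * c := by
    have e : Real.exp (-(K1 * L ^ 2)) * Real.exp (K1 * L ^ 2) = 1 := by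
      rw [← Real.exp_add]; simp
    calc (Fintype.card (Walk .square N) : ℝ) = (Real.exp (-(K1 * L ^ 2)) *
          Fintype.card (Walk .square N)) * Real.exp (K1 * L ^ 2) := by
          rw [mul_right_comm, e, one_mul]
      _ ≤ c * Real.exp (K1 * L ^ 2) := mul_le_mul_of_nonneg_right h1 (Real.exp_pos _).le
      _ = _ := mul_comm _ _
  have h2n : (N : ℝ) + 1 ≤ Real.exp (2 / Real.log 2 * L ^ 2) := by
    rw [hNr]
    have e3 : L ≤ L ^ 2 / Real.log 2 := by
      rw [le_div_iff₀ hl2]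
      nlinarith
    calc 2 * (n : ℝ) ≤ (n : ℝ) * n := by nlinarith
      _ = Real.exp (2 * L) := by
          rw [hL, two_mul, Real.exp_add, Real.exp_log (by linarith)]
      _ ≤ _ := by
          apply Real.exp_le_exp.mpr
          have : 2 / Real.log 2 * L ^ 2 = 2 * (L ^ 2 / Real.log 2) := by ring
          rw [this]
          linarith
  have hc0 : 0 ≤ c := Nat.cast_nonneg _
  calc _ ≤ ((N : ℝ) + 1) * ∑ ω : Walk .square N, lam ^ V (fun i => h (ω.1 i)) := h2
    _ ≤ Real.exp (2 / Real.log 2 * L ^ 2) * (Real.exp (K * lam ^ 2 * (4 * L ^ 2)) *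
          (Real.exp (K1 * L ^ 2) * c)) := by
        refine mul_le_mul h2n (hmean.trans (mul_le_mul ?_ hcard hW.le (Real.exp_pos _).le))
          (sum_nonneg fun _ _ => by positivity) (Real.exp_pos _).le
        apply Real.exp_le_exp.mpr
        gcongr
    _ = Real.exp (2 / Real.log 2 * L ^ 2 + K * lam ^ 2 * (4 * L ^ 2) + K1 * L ^ 2) * c := by
        rw [Real.exp_add, Real.exp_add]; ring
    _ ≤ _ := by
        refine mul_le_mul_of_nonneg_right (Real.exp_le_exp.mpr ?_) hc0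
        have hlam : 1 ≤ lam ^ 2 := by nlinarith
        have e4 : 0 ≤ (2 / Real.log 2 + K1) * L ^ 2 := by positivity
        nlinarith

/-- the arcs of `f` in the coordinate `h` are good with the bound `y` -/
def Good (f : ZMod M → ℤ × ℤ) (h : ℤ × ℤ → ℤ) (y : ℝ) : Prop :=
  ∀ (s : ZMod M) (a : ℕ), a < M → Cuts (along f h s) ⌊y⌋₊ 0 a ∧
    (∃ u v : ℕ, u ≤ v ∧ v ≤ a ∧ Brd (along f h s) u v ∧ (a : ℝ) ≤ y * ((v : ℝ) - u)) ∧
    (∃ u v : ℕ, u ≤ v ∧ v ≤ a ∧ Brd (along f h s) u v ∧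
      |(along f h s a : ℝ) - along f h s 0| ≤ y * |(along f h s v : ℝ) - along f h s u|)

lemma good_of {f : ZMod (N + 1) → ℤ × ℤ} (hf : Loop (N + 1) f) {h : ℤ × ℤ → ℤ}
    (hh : h ∈ Coords .square) {y : ℝ} (hy : 0 ≤ y) (hV : VA f h ≤ ⌊y⌋₊) : Good f h y := by
  obtain ⟨-, h1, -⟩ := VA_le hf hh
  intro s a ha
  have h2 := (h1 s a ha).mono hV
  have hfl := Nat.floor_le hy
  refine ⟨h2, ?_, ?_⟩
  · obtain ⟨u, v, -, h3, h4, h5, h6⟩ := h2.long hfl
    refine ⟨u, v, h3, h4, h5, ?_⟩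
    simpa using h6
  · obtain ⟨u, v, -, h3, h4, h5, h6⟩ := h2.high hfl
    exact ⟨u, v, h3, h4, h5, h6⟩

/-- **Typical polygons.** -/
theorem typical : ∃ K : ℝ, 0 < K ∧ ∀ n : ℕ, 2 ≤ n → ∀ x : ℝ, 0 ≤ x →
    (1 - Real.exp (-x)) * (({f | Loop (2 * n) f} : Set (ZMod (2 * n) → ℤ × ℤ)).ncard : ℝ) ≤
      (({f | Loop (2 * n) f ∧ ∀ h ∈ Coords .square, Good f h (K * (Real.log n ^ 2 + x))} :
        Set (ZMod (2 * n) → ℤ × ℤ)).ncard : ℝ) := by
  obtain ⟨K, hK, H⟩ := moments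
  have hl2 : 0 < Real.log 2 := Real.log_pos (by norm_num)
  refine ⟨9 * K + 1 + 1 / Real.log 2, by positivity, fun n hn x hx => ?_⟩
  set y : ℝ := (9 * K + 1 + 1 / Real.log 2) * (Real.log n ^ 2 + x) with hy
  have hn' : (2 : ℝ) ≤ n := by exact_mod_cast hn
  have hL2 : Real.log 2 ≤ Real.log n := Real.log_le_log (by norm_num) hn'
  have hy0 : 0 ≤ y := by positivity
  obtain ⟨N, hN⟩ : ∃ N, 2 * n = N + 1 := ⟨2 * n - 1, by omega⟩
  have h1 : ∀ h ∈ Coords .square,
      (({f | Loop (2 * n) f ∧ ⌊y⌋₊ + 1 ≤ VA f h} : Set (ZMod (2 * n) → ℤ × ℤ)).ncard : ℝ) ≤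
        Real.exp (-x) / 2 *
          (({f | Loop (2 * n) f} : Set (ZMod (2 * n) → ℤ × ℤ)).ncard : ℝ) := by
    intro h hh
    have h2 := H n hn h hh (Real.exp 1) (Real.one_le_exp (by norm_num)) (⌊y⌋₊ + 1)
    have h3 : Real.exp y ≤ Real.exp 1 ^ (⌊y⌋₊ + 1) := by
      rw [← Real.exp_nat_mul]
      apply Real.exp_le_exp.mpr
      have := Nat.lt_floor_add_one y
      push_cast
      linarith
    set b : ℝ := (({f | Loop (2 * n) f ∧ ⌊y⌋₊ + 1 ≤ VA f h} :
      Set (ZMod (2 * n) → ℤ × ℤ)).ncard : ℝ) with hb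
    set c : ℝ := (({f | Loop (2 * n) f} : Set (ZMod (2 * n) → ℤ × ℤ)).ncard : ℝ) with hc
    have hb0 : 0 ≤ b := Nat.cast_nonneg _
    have hc0 : 0 ≤ c := Nat.cast_nonneg _
    have h4 : Real.exp y * b ≤ Real.exp (9 * K * Real.log n ^ 2) * c := by
      calc Real.exp y * b ≤ Real.exp 1 ^ (⌊y⌋₊ + 1) * b := mul_le_mul_of_nonneg_right h3 hb0
        _ ≤ _ := h2
        _ ≤ _ := by
            refine mul_le_mul_of_nonneg_right (Real.exp_le_exp.mpr ?_) hc0
            have he : Real.exp 1 ^ 2 ≤ 9 := by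
              have := Real.exp_one_lt_d9
              have h0 := Real.exp_pos 1
              nlinarith
            have hl2' : 0 ≤ Real.log n ^ 2 := by positivity
            have : K * Real.exp 1 ^ 2 ≤ 9 * K := by nlinarith
            exact mul_le_mul_of_nonneg_right this hl2'
    have h5 : Real.exp (9 * K * Real.log n ^ 2) ≤ Real.exp y * (Real.exp (-x) / 2) := by
      have e1 : Real.exp y * (Real.exp (-x) / 2) = Real.exp (y - x - Real.log 2) := by
        rw [Real.exp_sub, Real.exp_sub, Real.exp_log (by norm_num), Real.exp_neg]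
        field_simp
      rw [e1]
      apply Real.exp_le_exp.mpr
      have e2 : Real.log 2 ≤ 1 / Real.log 2 * Real.log n ^ 2 := by
        rw [div_mul_eq_mul_div, one_mul, le_div_iff₀ hl2]
        nlinarith
      have e3 : 0 ≤ 1 / Real.log 2 * x := by positivity
      have e4 : 0 ≤ K * x := by positivity
      have e5 : 0 ≤ Real.log n ^ 2 := by positivity
      rw [hy]
      nlinarith
    have h6 : Real.exp y * b ≤ Real.exp y * (Real.exp (-x) / 2 * c) := by
      calc Real.exp y * b ≤ Real.exp (9 * K * Real.log n ^ 2) * c := h4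
        _ ≤ (Real.exp y * (Real.exp (-x) / 2)) * c := mul_le_mul_of_nonneg_right h5 hc0
        _ = _ := by ring
    exact le_of_mul_le_mul_left h6 (Real.exp_pos y)
  have hA := h1 (fun p => p.1) (Or.inl rfl)
  have hB := h1 (fun p => p.2) (Or.inr rfl)
  rw [hN] at hA hB ⊢
  have hfin := Loop_finite (N + 1) (Nat.succ_pos N)
  have hsub : ({f | Loop (N + 1) f} : Set (ZMod (N + 1) → ℤ × ℤ)) ⊆
      {f | Loop (N + 1) f ∧ ∀ h ∈ Coords .square, Good f h y} ∪
      ({f | Loop (N + 1) f ∧ ⌊y⌋₊ + 1 ≤ VA f (fun p => p.1)} ∪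
        {f | Loop (N + 1) f ∧ ⌊y⌋₊ + 1 ≤ VA f (fun p => p.2)}) := by
    intro f hf
    by_cases c1 : ⌊y⌋₊ + 1 ≤ VA f (fun p => p.1)
    · exact Or.inr (Or.inl ⟨hf, c1⟩)
    · by_cases c2 : ⌊y⌋₊ + 1 ≤ VA f (fun p => p.2)
      · exact Or.inr (Or.inr ⟨hf, c2⟩)
      · left
        refine ⟨hf, fun h hh => good_of hf hh hy0 ?_⟩
        have hh' : h = (fun p => p.1) ∨ h = (fun p => p.2) := hh
        rcases hh' with rfl | rfl
        · omega
        · omega
  have h7 := Set.ncard_le_ncard hsub (by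
    refine Set.Finite.subset hfin ?_
    rintro f (hf | hf | hf)
    · exact hf.1
    · exact hf.1
    · exact hf.1)
  have h8 := h7.trans (Set.ncard_union_le _ _)
  have h9 := Set.ncard_union_le
    ({f | Loop (N + 1) f ∧ ⌊y⌋₊ + 1 ≤ VA f (fun p => p.1)} : Set (ZMod (N + 1) → ℤ × ℤ))
    {f | Loop (N + 1) f ∧ ⌊y⌋₊ + 1 ≤ VA f (fun p => p.2)}
  have h10 : ((({f | Loop (N + 1) f} : Set (ZMod (N + 1) → ℤ × ℤ)).ncard : ℕ) : ℝ) ≤
      ((({f | Loop (N + 1) f ∧ ∀ h ∈ Coords .square, Good f h y} :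
        Set (ZMod (N + 1) → ℤ × ℤ)).ncard : ℕ) : ℝ) +
      (((({f | Loop (N + 1) f ∧ ⌊y⌋₊ + 1 ≤ VA f (fun p => p.1)} :
        Set (ZMod (N + 1) → ℤ × ℤ)).ncard : ℕ) : ℝ) +
      ((({f | Loop (N + 1) f ∧ ⌊y⌋₊ + 1 ≤ VA f (fun p => p.2)} :
        Set (ZMod (N + 1) → ℤ × ℤ)).ncard : ℕ) : ℝ)) := by
    exact_mod_cast h8.trans (Nat.add_le_add_left h9 _)
  linarith

end Run7.h529.PB
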